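import Mathlib

/-!
# Amdeberhan's divisibility for products of central binomial coefficients

For all integers `a > b ≥ 1` and `n ≥ 1` the number `(2bn+1)(2bn+3) C(2bn,bn)` divides
`3(a-b)(3a-b) C(2an,an) C(an,bn)`.

Proof: with `A = an`, `B = bn` one shows prime by prime (Legendre's formula, one power `q` of the prime
at a time) the sharper fact that `(2B+1)(2B+3) (2B)! A! (A-B)!` divides
`gcd(2B+1,A-B) gcd(2B+3,A-B) gcd(2B+3,2A+1) (2A)! B!`; the product of the three gcd's divides
`3(a-b)(3a-b)`.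
-/

set_option autoImplicit false

namespace Pool.Agent.Results.MP_698530_nt.AmdeberhanDivisibility

open Finset Nat

/-- the valuation as a sum over the powers of the prime -/
lemma val_eq_sum {p : ℕ} (hp : p.Prime) {x b : ℕ} (hx : x ≠ 0) (hb : Nat.log p x < b) :
    x.factorization p = ∑ i ∈ Ico 1 b, (if p ^ i ∣ x then 1 else 0) := by
  have h := Nat.emultiplicity_eq_card_pow_dvd (m := p) (n := x) (b := b) hp.ne_one
    (Nat.pos_of_ne_zero hx) hb
  rw [Finset.card_filter] at h
  have : Fact p.Prime := ⟨hp⟩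
  have h2 := padicValNat_eq_emultiplicity (p := p) (n := x) hx
  rw [h] at h2
  have h3 : padicValNat p x = ∑ i ∈ Ico 1 b, (if p ^ i ∣ x then 1 else 0) := by
    exact_mod_cast h2
  rw [← h3, Nat.factorization_def x hp]

lemma val_factorial {p : ℕ} (hp : p.Prime) {x b : ℕ} (hb : Nat.log p x < b) :
    (x !).factorization p = ∑ i ∈ Ico 1 b, x / p ^ i := by
  have : Fact p.Prime := ⟨hp⟩
  rw [Nat.factorization_def _ hp, padicValNat_factorial hb]

/-- the inequality for one modulus `q` -/
lemma termwise {q A B : ℕ} (hq : 2 ≤ q) (hAB : B ≤ A) :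
    (if q ∣ 2 * B + 1 then 1 else 0) + (if q ∣ 2 * B + 3 then 1 else 0) + 2 * B / q + A / q
      + (A - B) / q ≤
    (if q ∣ Nat.gcd (2 * B + 1) (A - B) then 1 else 0)
      + (if q ∣ Nat.gcd (2 * B + 3) (A - B) then 1 else 0)
      + (if q ∣ Nat.gcd (2 * B + 3) (2 * A + 1) then 1 else 0) + 2 * A / q + B / q := by
  have hq0 : 0 < q := by omega
  obtain ⟨A1, α, hA, hα⟩ : ∃ A1 α, A = q * A1 + α ∧ α < q :=
    ⟨A / q, A % q, (Nat.div_add_mod A q).symm, Nat.mod_lt _ hq0⟩
  obtain ⟨B1, β, hB, hβ⟩ : ∃ B1 β, B = q * B1 + β ∧ β < q :=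
    ⟨B / q, B % q, (Nat.div_add_mod B q).symm, Nat.mod_lt _ hq0⟩
  have small : ∀ x c : ℕ, c * q ≤ x → x < (c + 1) * q → x / q = c := by
    intro x c h1 h2
    exact Nat.div_eq_of_lt_le h1 h2
  -- quotients
  have e1 : A / q = A1 := by
    rw [hA, Nat.mul_add_div hq0, Nat.div_eq_of_lt hα, add_zero]
  have e2 : B / q = B1 := by
    rw [hB, Nat.mul_add_div hq0, Nat.div_eq_of_lt hβ, add_zero]
  have e3 : 2 * A / q = 2 * A1 + 2 * α / q := by
    rw [hA, show 2 * (q * A1 + α) = q * (2 * A1) + 2 * α by ring, Nat.mul_add_div hq0]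
  have e4 : 2 * B / q = 2 * B1 + 2 * β / q := by
    rw [hB, show 2 * (q * B1 + β) = q * (2 * B1) + 2 * β by ring, Nat.mul_add_div hq0]
  have hA1B1 : B1 ≤ A1 := by
    rw [← e1, ← e2]; exact Nat.div_le_div_right hAB
  obtain ⟨D, hD⟩ : ∃ D, A1 = B1 + D := ⟨A1 - B1, by omega⟩
  have hsub : A - B + β = q * D + α := by
    have : A = B + (A - B) := by omega
    rw [hD] at hA
    have h2 : q * (B1 + D) + α = q * B1 + β + (A - B) := by rw [← hA, ← hB]; exact this
    have h3 : q * (B1 + D) = q * B1 + q * D := by ring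
    omega
  have e5 : (A - B) / q + (if α < β then 1 else 0) = D := by
    split_ifs with h
    · -- borrow
      have hDpos : 0 < D := by
        rcases Nat.eq_zero_or_pos D with h0 | h0
        · rw [h0] at hsub; omega
        · exact h0
      obtain ⟨D', hD'⟩ : ∃ D', D = D' + 1 := ⟨D - 1, by omega⟩
      have h4 : A - B = q * D' + (q + α - β) := by
        have : q * D = q * D' + q := by rw [hD']; ring
        omega
      rw [h4, Nat.mul_add_div hq0, Nat.div_eq_of_lt (by omega)]
      omega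
    · have h4 : A - B = q * D + (α - β) := by omega
      rw [h4, Nat.mul_add_div hq0, Nat.div_eq_of_lt (by omega)]
      rfl
  have e6 : 2 * α / q = if q ≤ 2 * α then 1 else 0 := by
    split_ifs with h
    · exact small _ _ (by omega) (by omega)
    · exact Nat.div_eq_of_lt (by omega)
  have e7 : 2 * β / q = if q ≤ 2 * β then 1 else 0 := by
    split_ifs with h
    · exact small _ _ (by omega) (by omega)
    · exact Nat.div_eq_of_lt (by omega)
  -- divisibilities
  have d1 : q ∣ 2 * B + 1 ↔ 2 * β + 1 = q := by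
    have h5 : 2 * B + 1 = q * (2 * B1) + (2 * β + 1) := by rw [hB]; ring
    rw [h5, Nat.dvd_add_right (Dvd.intro _ rfl)]
    constructor
    · rintro ⟨c, hc⟩
      have hc2 : c < 2 := by
        by_contra h
        have : q * 2 ≤ q * c := Nat.mul_le_mul_left _ (by omega)
        omega
      interval_cases c <;> omega
    · intro h; rw [h]
  have d3 : q ∣ 2 * B + 3 ↔ 2 * β + 3 = q := by
    have h5 : 2 * B + 3 = q * (2 * B1) + (2 * β + 3) := by rw [hB]; ring
    rw [h5, Nat.dvd_add_right (Dvd.intro _ rfl)]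
    constructor
    · rintro ⟨c, hc⟩
      have hc2 : c < 3 := by
        by_contra h
        have : q * 3 ≤ q * c := Nat.mul_le_mul_left _ (by omega)
        omega
      interval_cases c <;> omega
    · intro h; rw [h]
  have d5 : α = β → q ∣ A - B := by
    intro h
    have h6 : A - B = q * D := by omega
    rw [h6]; exact Dvd.intro _ rfl
  have d6 : 2 * α + 1 = q → q ∣ 2 * A + 1 := by
    intro h
    have h6 : 2 * A + 1 = q * (2 * A1 + 1) := by
      rw [hA]
      have : q * (2 * A1 + 1) = q * (2 * A1) + q := by ring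
      have h7 : q * (2 * A1) = 2 * (q * A1) := by ring
      omega
    rw [h6]; exact Dvd.intro _ rfl
  have u1 : (q ≤ 2 * α ∧ 2 * α / q = 1) ∨ (2 * α < q ∧ 2 * α / q = 0) := by
    by_cases h : q ≤ 2 * α
    · exact Or.inl ⟨h, by rw [e6, if_pos h]⟩
    · exact Or.inr ⟨by omega, by rw [e6, if_neg h]⟩
  have u2 : (q ≤ 2 * β ∧ 2 * β / q = 1) ∨ (2 * β < q ∧ 2 * β / q = 0) := by
    by_cases h : q ≤ 2 * β
    · exact Or.inl ⟨h, by rw [e7, if_pos h]⟩
    · exact Or.inr ⟨by omega, by rw [e7, if_neg h]⟩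
  have u3 : (α < β ∧ (A - B) / q + 1 = D) ∨ (β ≤ α ∧ (A - B) / q = D) := by
    by_cases h : α < β
    · rw [if_pos h] at e5; exact Or.inl ⟨h, e5⟩
    · rw [if_neg h] at e5; exact Or.inr ⟨by omega, e5⟩
  clear e5 e6 e7
  rw [e3, e4, e1, e2]
  generalize 2 * α / q = ua at *
  generalize 2 * β / q = ub at *
  generalize (A - B) / q = uc at *
  simp only [Nat.dvd_gcd_iff]
  have pos : ∀ (P : Prop) [Decidable P], 0 ≤ (if P then 1 else 0 : ℕ) := fun _ _ => Nat.zero_le _
  by_cases c1 : q ∣ 2 * B + 1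
  · have c1' := d1.1 c1
    have c3 : ¬ q ∣ 2 * B + 3 := by rw [d3]; omega
    simp only [c1, c3, true_and, false_and, if_true, if_false]
    by_cases hab : α = β
    · have := d5 hab
      simp only [this, if_true]
      omega
    · have := pos (q ∣ A - B)
      omega
  · by_cases c3 : q ∣ 2 * B + 3
    · have c3' := d3.1 c3
      simp only [c1, c3, true_and, false_and, if_true, if_false]
      by_cases hab : α = β
      · have := d5 hab
        simp only [this, if_true]
        omega
      · by_cases hq2 : 2 * α + 1 = q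
        · have := d6 hq2
          simp only [this, if_true]
          omega
        · omega
    · simp only [c1, c3, false_and, if_false]
      omega

/-- the sharp divisibility with the three gcd's -/
lemma sharp {A B : ℕ} (hAB : B < A) :
    (2 * B + 1) * (2 * B + 3) * (2 * B)! * A ! * (A - B)! ∣
      Nat.gcd (2 * B + 1) (A - B) * Nat.gcd (2 * B + 3) (A - B) * Nat.gcd (2 * B + 3) (2 * A + 1)
        * (2 * A)! * B ! := by
  have g1 : Nat.gcd (2 * B + 1) (A - B) ≠ 0 := Nat.gcd_ne_zero_left (by omega)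
  have g2 : Nat.gcd (2 * B + 3) (A - B) ≠ 0 := Nat.gcd_ne_zero_left (by omega)
  have g3 : Nat.gcd (2 * B + 3) (2 * A + 1) ≠ 0 := Nat.gcd_ne_zero_left (by omega)
  have f : ∀ m : ℕ, m ! ≠ 0 := Nat.factorial_ne_zero
  have x1 : 2 * B + 1 ≠ 0 := by omega
  have x3 : 2 * B + 3 ≠ 0 := by omega
  have n1 := mul_ne_zero x1 x3
  have n2 := mul_ne_zero n1 (f (2 * B))
  have n3 := mul_ne_zero n2 (f A)
  have n4 := mul_ne_zero n3 (f (A - B))
  have m1 := mul_ne_zero g1 g2
  have m2 := mul_ne_zero m1 g3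
  have m3 := mul_ne_zero m2 (f (2 * A))
  have m4 := mul_ne_zero m3 (f B)
  rw [← Nat.factorization_prime_le_iff_dvd n4 m4]
  intro p hp
  have b0 : ∀ x, x ≤ 4 * A + 4 → Nat.log p x < 4 * A + 5 := by
    intro x hx
    exact lt_of_le_of_lt (Nat.log_le_self _ _) (by omega)
  have bg : ∀ x y, 0 < x → Nat.gcd x y ≤ x := fun x y h => Nat.gcd_le_left y h
  rw [Nat.factorization_mul n3 (f _), Nat.factorization_mul n2 (f _),
    Nat.factorization_mul n1 (f _), Nat.factorization_mul x1 x3,
    Nat.factorization_mul m3 (f _), Nat.factorization_mul m2 (f _),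
    Nat.factorization_mul m1 g3, Nat.factorization_mul g1 g2]
  simp only [Finsupp.add_apply]
  rw [val_eq_sum hp x1 (b0 _ (by omega)), val_eq_sum hp x3 (b0 _ (by omega)),
    val_factorial hp (b0 (2 * B) (by omega)), val_factorial hp (b0 A (by omega)),
    val_factorial hp (b0 (A - B) (by omega)),
    val_eq_sum hp g1 (b0 _ ((bg _ _ (by omega)).trans (by omega))),
    val_eq_sum hp g2 (b0 _ ((bg _ _ (by omega)).trans (by omega))),
    val_eq_sum hp g3 (b0 _ ((bg _ _ (by omega)).trans (by omega))),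
    val_factorial hp (b0 (2 * A) (by omega)), val_factorial hp (b0 B (by omega))]
  simp only [← Finset.sum_add_distrib]
  refine Finset.sum_le_sum fun i hi => ?_
  have hi1 : 1 ≤ i := (Finset.mem_Ico.1 hi).1
  have hq : 2 ≤ p ^ i := by
    calc 2 ≤ p := hp.two_le
      _ = p ^ 1 := (pow_one p).symm
      _ ≤ p ^ i := Nat.pow_le_pow_right hp.pos hi1
  exact termwise hq hAB.le

/-- the version with binomial coefficients -/
lemma sharp_choose {A B : ℕ} (hAB : B < A) :
    (2 * B + 1) * (2 * B + 3) * (2 * B).choose B ∣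
      Nat.gcd (2 * B + 1) (A - B) * Nat.gcd (2 * B + 3) (A - B) * Nat.gcd (2 * B + 3) (2 * A + 1)
        * (2 * A).choose A * A.choose B := by
  have h := sharp hAB
  have e1 : (2 * B)! = (2 * B).choose B * (B ! * B !) := by
    have := Nat.choose_mul_factorial_mul_factorial (n := 2 * B) (k := B) (by omega)
    rw [show 2 * B - B = B by omega] at this
    rw [← this]; ring
  have e2 : (2 * A)! = (2 * A).choose A * (A ! * A !) := by
    have := Nat.choose_mul_factorial_mul_factorial (n := 2 * A) (k := A) (by omega)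
    rw [show 2 * A - A = A by omega] at this
    rw [← this]; ring
  have e3 : A ! = A.choose B * (B ! * (A - B)!) := by
    have := Nat.choose_mul_factorial_mul_factorial (n := A) (k := B) hAB.le
    rw [← this]; ring
  set G := Nat.gcd (2 * B + 1) (A - B) * Nat.gcd (2 * B + 3) (A - B) *
    Nat.gcd (2 * B + 3) (2 * A + 1) with hG
  have hM : 0 < B ! * B ! * A ! * (A - B)! := by positivity
  refine Nat.dvd_of_mul_dvd_mul_right hM ?_
  have l : (2 * B + 1) * (2 * B + 3) * (2 * B).choose B * (B ! * B ! * A ! * (A - B)!) =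
      (2 * B + 1) * (2 * B + 3) * (2 * B)! * A ! * (A - B)! := by
    rw [e1]; ring
  have r : G * (2 * A).choose A * A.choose B * (B ! * B ! * A ! * (A - B)!) =
      G * (2 * A)! * B ! := by
    rw [e2]
    calc G * (2 * A).choose A * A.choose B * (B ! * B ! * A ! * (A - B)!)
        = G * (2 * A).choose A * A ! * B ! * (A.choose B * (B ! * (A - B)!)) := by ring
      _ = G * (2 * A).choose A * A ! * B ! * A ! := by rw [← e3]
      _ = G * ((2 * A).choose A * (A ! * A !)) * B ! := by ring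
  rw [l, r]
  exact h

/-- **Amdeberhan's conjecture.** For all positive integers `a > b` and `n`,
`(2bn+1)(2bn+3) C(2bn,bn)` divides `3(a-b)(3a-b) C(2an,an) C(an,bn)`. -/
theorem result : ∀ a b n : ℕ, 0 < b → b < a → 0 < n →
    (2 * b * n + 1) * (2 * b * n + 3) * (2 * b * n).choose (b * n) ∣
      3 * (a - b) * (3 * a - b) * (2 * a * n).choose (a * n) * (a * n).choose (b * n) := by
  intro a b n hb hab hn
  have hAB : b * n < a * n := Nat.mul_lt_mul_of_pos_right hab hn
  have h := sharp_choose hAB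
  rw [show 2 * b * n = 2 * (b * n) by ring, show 2 * a * n = 2 * (a * n) by ring]
  refine h.trans ?_
  refine Nat.mul_dvd_mul (Nat.mul_dvd_mul ?_ dvd_rfl) dvd_rfl
  have hsub : a * n - b * n = (a - b) * n := (Nat.sub_mul a b n).symm
  -- the three gcd's
  have k1 : Nat.gcd (2 * (b * n) + 1) (a * n - b * n) ∣ 3 * (a - b) := by
    rw [hsub]
    have hc : Nat.Coprime (2 * (b * n) + 1) n := by
      have h1 : Nat.Coprime (2 * (b * n) + 1) (2 * (b * n)) := by
        rw [Nat.coprime_self_add_left]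
        exact Nat.coprime_one_left _
      exact h1.coprime_dvd_right ⟨2 * b, by ring⟩
    exact (Nat.Coprime.dvd_of_dvd_mul_right (Nat.Coprime.coprime_dvd_left (Nat.gcd_dvd_left _ _) hc)
      (Nat.gcd_dvd_right _ _)).trans (Dvd.intro_left _ rfl)
  have k2 : Nat.gcd (2 * (b * n) + 3) (a * n - b * n) ∣ 3 * (a - b) := by
    rw [hsub]
    set g := Nat.gcd (2 * (b * n) + 3) ((a - b) * n) with hg
    have g1 : g ∣ 2 * (b * n) + 3 := Nat.gcd_dvd_left _ _
    have g2 : g ∣ (a - b) * n := Nat.gcd_dvd_right _ _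
    -- `g ∣ (2 b n + 3) (a - b) - 2 b ((a - b) n) = 3 (a - b)`
    have g3 : g ∣ (2 * (b * n) + 3) * (a - b) := g1.mul_right _
    have g4 : g ∣ 2 * b * ((a - b) * n) := g2.mul_left _
    have e : (2 * (b * n) + 3) * (a - b) = 2 * b * ((a - b) * n) + 3 * (a - b) := by ring
    rw [e] at g3
    exact (Nat.dvd_add_right g4).1 g3
  have k3 : Nat.gcd (2 * (b * n) + 3) (2 * (a * n) + 1) ∣ 3 * a - b := by
    set g := Nat.gcd (2 * (b * n) + 3) (2 * (a * n) + 1) with hg
    have g1 : g ∣ 2 * (b * n) + 3 := Nat.gcd_dvd_left _ _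
    have g2 : g ∣ 2 * (a * n) + 1 := Nat.gcd_dvd_right _ _
    have hc : Nat.Coprime (2 * (a * n) + 1) (2 * n) := by
      have h1 : Nat.Coprime (2 * (a * n) + 1) (2 * (a * n)) := by
        rw [Nat.coprime_self_add_left]
        exact Nat.coprime_one_left _
      exact h1.coprime_dvd_right ⟨a, by ring⟩
    have hc' : Nat.Coprime g (2 * n) := Nat.Coprime.coprime_dvd_left g2 hc
    refine hc'.dvd_of_dvd_mul_left ?_
    have g3 : g ∣ 3 * (2 * (a * n) + 1) := g2.mul_left _
    have hle : b ≤ 3 * a := by omega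
    have e : 3 * (2 * (a * n) + 1) = 2 * n * (3 * a - b) + (2 * (b * n) + 3) := by
      have h5 : 3 * a = (3 * a - b) + b := by omega
      have h6 : 3 * (2 * (a * n) + 1) = 2 * n * (3 * a) + 3 := by ring
      rw [h6]
      nth_rewrite 1 [h5]
      ring
    rw [e] at g3
    exact (Nat.dvd_add_left g1).1 g3
  have hcop : Nat.Coprime (Nat.gcd (2 * (b * n) + 1) (a * n - b * n))
      (Nat.gcd (2 * (b * n) + 3) (a * n - b * n)) := by
    have h1 : Nat.Coprime (2 * (b * n) + 1) (2 * (b * n) + 3) := by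
      rw [show 2 * (b * n) + 3 = 2 + (2 * (b * n) + 1) by ring, Nat.coprime_add_self_right]
      rw [Nat.coprime_two_right]
      exact ⟨b * n, rfl⟩
    exact Nat.Coprime.coprime_dvd_left (Nat.gcd_dvd_left _ _)
      (Nat.Coprime.coprime_dvd_right (Nat.gcd_dvd_left _ _) h1)
  exact Nat.mul_dvd_mul (hcop.mul_dvd_of_dvd_of_dvd k1 k2) k3

end Pool.Agent.Results.MP_698530_nt.AmdeberhanDivisibility
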